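import Pool.Agent.P.MP_1a0ecf_al.Bridge

namespace Pool.Agent.P.MP_1a0ecf_al.Old.Exceptional

open CoxeterMatrix Pool.Agent.P.MP_1a0ecf_al

/-- The Gordon-Martino conjecture for the Coxeter groups of types E6, E7, E8, H3, H4. -/
theorem result : ∀ T ∈ ([⟨6, E₆⟩, ⟨7, E₇⟩, ⟨8, E₈⟩, ⟨3, H₃⟩, ⟨4, H₄⟩] :
    List (Σ n : ℕ, CoxeterMatrix (Fin n))), S.GordonMartino T.2 := by
  intro T hT
  simp only [List.mem_cons, List.not_mem_nil, or_false] at hT
  rcases hT with rfl | rfl | rfl | rfl | rfl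
  exacts [spec_of gm_E6, spec_of gm_E7, spec_of gm_E8, spec_of gm_H3, spec_of gm_H4]

end Pool.Agent.P.MP_1a0ecf_al.Old.Exceptional
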